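import Mathlib

/-!
# MP_388f8c_an : a closed cone weakly separated from the origin without a bounded base

Example: finitely supported sequences with norm `∑ |z n| + |∑ (-1)^n n z n|`, and the cone of
nonnegative sequences.
-/

set_option autoImplicit false

namespace Pool.Agent.Results.MP_388f8c_an.WeakSeparation

section

variable {X : Type} [NormedAddCommGroup X] [NormedSpace ℝ X]

/-- Pointed convex cones. -/
structure IsCone (C : Set X) : Prop where
  nonempty : C.Nonempty
  add_mem : ∀ x ∈ C, ∀ y ∈ C, x + y ∈ C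
  smul_mem : ∀ t : ℝ, 0 ≤ t → ∀ x ∈ C, t • x ∈ C
  pointed : ∀ x, x ∈ C ∧ -x ∈ C ↔ x = 0

/-- Bases of a cone. -/
structure IsBase (C B : Set X) : Prop where
  nonempty : B.Nonempty
  convex : Convex ℝ B
  subset : B ⊆ C
  zero_notMem : (0 : X) ∉ closure B
  existsUnique : ∀ c ∈ C, c ≠ 0 → ∃! p : ℝ × X, 0 < p.1 ∧ p.2 ∈ B ∧ c = p.1 • p.2

/-- The cone has a bounded base. -/
def HasBoundedBase (C : Set X) : Prop := ∃ B : Set X, IsBase C B ∧ Bornology.IsBounded B

/-- Condition `(∗)`: for all `ε ∈ (0,1)`, `0` is not in the weak closure of `C \ ε B_X`. -/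
def WeaklySeparated (C : Set X) : Prop :=
  ∀ ε : ℝ, 0 < ε → ε < 1 →
    (0 : WeakSpace ℝ X) ∉ closure ((toWeakSpace ℝ X) '' (C \ Metric.closedBall (0 : X) ε))

end

/-- Finitely supported real sequences. -/
def X₀ : Type := ℕ →₀ ℝ

noncomputable instance : AddCommGroup X₀ := inferInstanceAs (AddCommGroup (ℕ →₀ ℝ))
noncomputable instance : Module ℝ X₀ := inferInstanceAs (Module ℝ (ℕ →₀ ℝ))

/-- coordinates -/
def X₀.coord (z : X₀) (n : ℕ) : ℝ := (show ℕ →₀ ℝ from z) n

/-- the `ℓ¹` norm -/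
noncomputable def S (z : X₀) : ℝ := Finsupp.sum (show ℕ →₀ ℝ from z) (fun _ a => |a|)

/-- the sum of the coordinates -/
noncomputable def f1 : X₀ →ₗ[ℝ] ℝ := Finsupp.linearCombination ℝ (fun _ : ℕ => (1 : ℝ))

/-- the functional `∑ (-1)^n n z n` -/
noncomputable def f2 : X₀ →ₗ[ℝ] ℝ :=
  Finsupp.linearCombination ℝ (fun n : ℕ => ((-1) ^ n * n : ℝ))

lemma S_eq {z : X₀} {s : Finset ℕ} (hs : (show ℕ →₀ ℝ from z).support ⊆ s) :
    S z = ∑ n ∈ s, |z.coord n| :=
  Finsupp.sum_of_support_subset _ hs _ (by simp)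

lemma S_nonneg (z : X₀) : 0 ≤ S z := Finset.sum_nonneg fun _ _ => abs_nonneg _

lemma coord_le_S (z : X₀) (n : ℕ) : |z.coord n| ≤ S z := by
  classical
  rw [S_eq (s := insert n (show ℕ →₀ ℝ from z).support) (Finset.subset_insert _ _)]
  exact Finset.single_le_sum (f := fun n => |z.coord n|) (fun _ _ => abs_nonneg _)
    (Finset.mem_insert_self _ _)

lemma coord_add (z w : X₀) (n : ℕ) : (z + w).coord n = z.coord n + w.coord n := rfl
lemma coord_smul (t : ℝ) (z : X₀) (n : ℕ) : (t • z).coord n = t * z.coord n := rfl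
lemma coord_zero (n : ℕ) : (0 : X₀).coord n = 0 := rfl
lemma coord_neg (z : X₀) (n : ℕ) : (-z).coord n = -z.coord n := rfl
lemma coord_ext {z w : X₀} (h : ∀ n, z.coord n = w.coord n) : z = w := Finsupp.ext h

lemma S_add (z w : X₀) : S (z + w) ≤ S z + S w := by
  classical
  set s := (show ℕ →₀ ℝ from z).support ∪ (show ℕ →₀ ℝ from w).support with hs
  rw [S_eq (z := z + w) (s := s) Finsupp.support_add,
    S_eq (z := z) (s := s) Finset.subset_union_left,
    S_eq (z := w) (s := s) Finset.subset_union_right, ← Finset.sum_add_distrib]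
  exact Finset.sum_le_sum fun n _ => abs_add_le _ _

lemma S_smul (t : ℝ) (z : X₀) : S (t • z) = |t| * S z := by
  rw [S_eq (z := t • z) (s := (show ℕ →₀ ℝ from z).support) Finsupp.support_smul,
    S_eq (z := z) (s := (show ℕ →₀ ℝ from z).support) (Finset.Subset.refl _), Finset.mul_sum]
  exact Finset.sum_congr rfl fun n _ => by rw [coord_smul, abs_mul]

noncomputable instance : Norm X₀ := ⟨fun z => S z + |f2 z|⟩

lemma norm_eq (z : X₀) : ‖z‖ = S z + |f2 z| := rfl

lemma core : NormedSpace.Core ℝ X₀ where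
  norm_nonneg z := add_nonneg (S_nonneg z) (abs_nonneg _)
  norm_eq_zero_iff z := by
    constructor
    · intro h
      rw [norm_eq] at h
      have h1 : S z = 0 := by
        have := S_nonneg z; have := abs_nonneg (f2 z); linarith
      apply coord_ext
      intro n
      have := coord_le_S z n
      rw [h1] at this
      rw [coord_zero]
      exact abs_eq_zero.1 (le_antisymm this (abs_nonneg _))
    · rintro rfl
      rw [norm_eq, map_zero]
      have := S_smul 0 0
      simp only [zero_smul, abs_zero, zero_mul] at this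
      simp [this]
  norm_smul t z := by
    rw [norm_eq, norm_eq, S_smul, map_smul, smul_eq_mul, abs_mul, Real.norm_eq_abs]
    ring
  norm_triangle z w := by
    rw [norm_eq, norm_eq, norm_eq, map_add]
    have := S_add z w
    have := abs_add_le (f2 z) (f2 w)
    linarith

noncomputable instance : NormedAddCommGroup X₀ := NormedAddCommGroup.ofCore core
noncomputable instance : NormedSpace ℝ X₀ := NormedSpace.ofCore core

lemma norm_eq' (z : X₀) : ‖z‖ = S z + |f2 z| := rfl

/-- The cone of nonnegative sequences. -/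
def C₀ : Set X₀ := {z | ∀ n, 0 ≤ z.coord n}

lemma f1_abs (z : X₀) : |f1 z| ≤ S z := by
  have : f1 z = ∑ n ∈ (show ℕ →₀ ℝ from z).support, z.coord n * 1 := rfl
  rw [this, S_eq (z := z) (Finset.Subset.refl _)]
  refine (Finset.abs_sum_le_sum_abs _ _).trans (le_of_eq ?_)
  simp

lemma f1_of_mem {z : X₀} (hz : z ∈ C₀) : f1 z = S z := by
  have : f1 z = ∑ n ∈ (show ℕ →₀ ℝ from z).support, z.coord n * 1 := rfl
  rw [this, S_eq (z := z) (Finset.Subset.refl _)]
  refine Finset.sum_congr rfl fun n _ => ?_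
  rw [mul_one, abs_of_nonneg (hz n)]

noncomputable def F1 : X₀ →L[ℝ] ℝ := f1.mkContinuous 1 fun z => by
  rw [Real.norm_eq_abs, one_mul, norm_eq']
  exact (f1_abs z).trans (le_add_of_nonneg_right (abs_nonneg _))

noncomputable def F2 : X₀ →L[ℝ] ℝ := f2.mkContinuous 1 fun z => by
  rw [Real.norm_eq_abs, one_mul, norm_eq']
  exact le_add_of_nonneg_left (S_nonneg z)

noncomputable def coordL (n : ℕ) : X₀ →L[ℝ] ℝ :=
  ({ toFun := fun z => z.coord n, map_add' := fun z w => coord_add z w n,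
     map_smul' := fun t z => coord_smul t z n } : X₀ →ₗ[ℝ] ℝ).mkContinuous 1 fun z => by
  rw [Real.norm_eq_abs, one_mul, norm_eq']
  exact (coord_le_S z n).trans (le_add_of_nonneg_right (abs_nonneg _))

lemma isClosed_C₀ : IsClosed C₀ := by
  have : C₀ = ⋂ n, (coordL n) ⁻¹' (Set.Ici 0) := by
    ext z; simp [C₀, coordL]
  rw [this]
  exact isClosed_iInter fun n => isClosed_Ici.preimage (coordL n).continuous

lemma isCone_C₀ : IsCone C₀ where
  nonempty := ⟨0, fun n => by rw [coord_zero]⟩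
  add_mem x hx y hy := fun n => by rw [coord_add]; exact add_nonneg (hx n) (hy n)
  smul_mem t ht x hx := fun n => by rw [coord_smul]; exact mul_nonneg ht (hx n)
  pointed x := by
    constructor
    · rintro ⟨h1, h2⟩
      apply coord_ext
      intro n
      have h3 := h1 n
      have h4 := h2 n
      rw [coord_neg] at h4
      rw [coord_zero]
      linarith
    · rintro rfl
      exact ⟨fun n => by rw [coord_zero], fun n => by rw [neg_zero, coord_zero]⟩

lemma weak_cont (f : X₀ →L[ℝ] ℝ) :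
    Continuous fun w : WeakSpace ℝ X₀ => f ((toWeakSpace ℝ X₀).symm w) :=
  WeakBilin.eval_continuous (topDualPairing ℝ X₀).flip f

lemma separated : WeaklySeparated C₀ := by
  intro ε hε hε1 hmem
  have hU : IsOpen {w : WeakSpace ℝ X₀ | |F1 ((toWeakSpace ℝ X₀).symm w)| < ε / 2 ∧
      |F2 ((toWeakSpace ℝ X₀).symm w)| < ε / 2} := by
    apply IsOpen.inter
    · exact isOpen_lt ((weak_cont F1).abs) continuous_const
    · exact isOpen_lt ((weak_cont F2).abs) continuous_const
  rw [mem_closure_iff] at hmem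
  obtain ⟨w, ⟨hw1, hw2⟩, z, ⟨hz1, hz2⟩, rfl⟩ := hmem _ hU (by simp [hε])
  rw [LinearEquiv.symm_apply_apply] at hw1 hw2
  apply hz2
  rw [mem_closedBall_zero_iff, norm_eq']
  change |f1 z| < _ at hw1
  change |f2 z| < _ at hw2
  rw [f1_of_mem hz1, abs_of_nonneg (S_nonneg z)] at hw1
  linarith

/-- unit vectors -/
noncomputable def e (n : ℕ) : X₀ := (Finsupp.single n (1 : ℝ) : ℕ →₀ ℝ)

lemma e_mem (n : ℕ) : e n ∈ C₀ := by
  intro m
  change 0 ≤ (Finsupp.single n (1 : ℝ) : ℕ →₀ ℝ) m
  rw [Finsupp.single_apply]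
  split_ifs <;> norm_num

lemma e_ne (n : ℕ) : e n ≠ 0 := by
  intro h
  have : (e n).coord n = (0 : X₀).coord n := by rw [h]
  change (Finsupp.single n (1 : ℝ) : ℕ →₀ ℝ) n = 0 at this
  simp at this

lemma f2_e (n : ℕ) : f2 (e n) = (-1) ^ n * n := by
  change Finsupp.linearCombination ℝ _ (Finsupp.single n (1 : ℝ)) = _
  rw [Finsupp.linearCombination_single, one_smul]

lemma S_e (n : ℕ) : S (e n) = 1 := by
  change Finsupp.sum (Finsupp.single n (1 : ℝ)) (fun _ a => |a|) = 1
  rw [Finsupp.sum_single_index] <;> simp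

lemma no_base : ¬ HasBoundedBase C₀ := by
  rintro ⟨B, hB, hbd⟩
  -- lower bound on the norm of elements of `B`
  obtain ⟨r, hr, hrB⟩ : ∃ r > 0, ∀ b ∈ B, r ≤ ‖b‖ := by
    have h1 := hB.zero_notMem
    rw [Metric.mem_closure_iff] at h1
    push Not at h1
    obtain ⟨r, hr, h2⟩ := h1
    exact ⟨r, hr, fun b hb => by have := h2 b hb; rwa [dist_zero_left] at this⟩
  obtain ⟨M, hM, hMB⟩ := hbd.exists_pos_norm_le
  -- key inequality
  have key : ∀ x ∈ C₀, x ≠ 0 → ∀ y ∈ C₀, y ≠ 0 → r * ‖x‖ ≤ M * ‖x + y‖ := by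
    intro x hx hx0 y hy hy0
    obtain ⟨⟨a, b⟩, ⟨ha, hb, hxa⟩, -⟩ := hB.existsUnique x hx hx0
    obtain ⟨⟨a', b'⟩, ⟨ha', hb', hya⟩, -⟩ := hB.existsUnique y hy hy0
    simp only at ha hb hxa ha' hb' hya
    have hpos : 0 < a + a' := add_pos ha ha'
    have hmid : (a / (a + a')) • b + (a' / (a + a')) • b' ∈ B := by
      apply hB.convex hb hb' (by positivity) (by positivity)
      field_simp
    have hsum : x + y = (a + a') • ((a / (a + a')) • b + (a' / (a + a')) • b') := by
      rw [smul_add, smul_smul, smul_smul, mul_div_cancel₀ _ hpos.ne', mul_div_cancel₀ _ hpos.ne',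
        hxa, hya]
    have h1 : (a + a') * r ≤ ‖x + y‖ := by
      rw [hsum, norm_smul, Real.norm_of_nonneg hpos.le]
      exact mul_le_mul_of_nonneg_left (hrB _ hmid) hpos.le
    have h2 : ‖x‖ ≤ a * M := by
      rw [hxa, norm_smul, Real.norm_of_nonneg ha.le]
      exact mul_le_mul_of_nonneg_left (hMB _ hb) ha.le
    calc r * ‖x‖ ≤ r * (a * M) := mul_le_mul_of_nonneg_left h2 hr.le
      _ = M * (a * r) := by ring
      _ ≤ M * ((a + a') * r) := by
          apply mul_le_mul_of_nonneg_left _ hM.le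
          exact mul_le_mul_of_nonneg_right (by linarith) hr.le
      _ ≤ M * ‖x + y‖ := mul_le_mul_of_nonneg_left h1 hM.le
  -- choose `n` large
  obtain ⟨n, hn⟩ := exists_nat_gt (2 * M / r)
  have ht : (0 : ℝ) < (2 * n : ℝ) / (2 * n + 1) ∨ n = 0 := by
    rcases Nat.eq_zero_or_pos n with h | h
    · exact Or.inr h
    · left
      have : (0 : ℝ) < n := by exact_mod_cast h
      positivity
  have hn0 : n ≠ 0 := by
    rintro rfl
    have : 0 < 2 * M / r := by positivity
    simp at hn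
    linarith
  have ht' : (0 : ℝ) < (2 * n : ℝ) / (2 * n + 1) := ht.resolve_right hn0
  set t : ℝ := (2 * n : ℝ) / (2 * n + 1) with htdef
  have hte : t • e (2 * n + 1) ∈ C₀ := isCone_C₀.smul_mem t ht'.le _ (e_mem _)
  have hte0 : t • e (2 * n + 1) ≠ 0 := smul_ne_zero ht'.ne' (e_ne _)
  have h := key (e (2 * n)) (e_mem _) (e_ne _) _ hte hte0
  have hx : ‖e (2 * n)‖ = 1 + 2 * n := by
    rw [norm_eq', S_e, f2_e, pow_mul]
    norm_num
  have hxy : ‖e (2 * n) + t • e (2 * n + 1)‖ ≤ 2 := by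
    rw [norm_eq', map_add, map_smul, f2_e, f2_e, pow_succ, pow_mul]
    have h1 : ((-1 : ℝ) ^ 2) ^ n * ((2 * n : ℕ) : ℝ) +
        t • (((-1 : ℝ) ^ 2) ^ n * (-1) * ((2 * n + 1 : ℕ) : ℝ)) = 0 := by
      rw [htdef, smul_eq_mul]
      push_cast
      norm_num
      field_simp
      ring
    rw [h1, abs_zero, add_zero]
    refine (S_add _ _).trans ?_
    rw [S_smul, S_e, S_e, abs_of_pos ht']
    have : t ≤ 1 := by
      rw [htdef, div_le_one (by positivity)]; linarith
    linarith
  rw [hx] at h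
  have h3 : r * (1 + 2 * n) ≤ M * 2 :=
    h.trans (mul_le_mul_of_nonneg_left hxy hM.le)
  rw [div_lt_iff₀ hr] at hn
  have : (0 : ℝ) ≤ n := Nat.cast_nonneg n
  nlinarith

/-- **MP_388f8c_an, Q1: yes.**  There are a normed space and a closed cone in it which satisfies
`(∗)` but has no bounded base. -/
theorem result : ∃ (X : Type) (_ : NormedAddCommGroup X) (_ : NormedSpace ℝ X) (C : Set X),
    IsCone C ∧ IsClosed C ∧ WeaklySeparated C ∧ ¬ HasBoundedBase C :=
  ⟨X₀, inferInstance, inferInstance, C₀, isCone_C₀, isClosed_C₀, separated, no_base⟩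

end Pool.Agent.Results.MP_388f8c_an.WeakSeparation
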